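import Pool.Agent.H624.LD.Stm
import Pool.Graph.R_pool_sql_team_seeded_9f66d723.W6h79.LD.All8

/-!
# (K12) A Banach space whose dual has a single piece of type `ℵ₁`
-/

set_option autoImplicit false

open MeasureTheory Set Filter
open scoped ENNReal NNReal Topology
open Pool.Agent.W6h79.LD Pool.Agent.H624.LD

noncomputable section

namespace Pool.Agent.H597.LD

universe u v

/-- Zorn's lemma for families of pairwise singular probability measures -/
theorem k12_max {X : Type u} [MeasurableSpace X] (P0 : Set (Measure X))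
    (hP : ∀ ν ∈ P0, IsProbabilityMeasure ν)
    (hS : ∀ ν ∈ P0, ∀ ν' ∈ P0, ν ≠ ν' → ν ⟂ₘ ν') : ∃ 𝓕, P0 ⊆ 𝓕 ∧ MaxFamX 𝓕 := by
  let P : Set (Set (Measure X)) := {𝓕 |
      (∀ ν ∈ 𝓕, IsProbabilityMeasure ν) ∧
      (∀ ν ∈ 𝓕, ∀ ν' ∈ 𝓕, ν ≠ ν' → ν ⟂ₘ ν')}
  have h0 : P0 ∈ P := ⟨hP, hS⟩
  obtain ⟨𝓕, hsub, h𝓕⟩ := zorn_subset_nonempty P (by
    intro c hc hchain _
    refine ⟨⋃₀ c, ⟨?_, ?_⟩, fun s hs => subset_sUnion_of_mem hs⟩
    · rintro ν ⟨t, ht, hν⟩
      exact (hc ht).1 ν hν
    · rintro ν ⟨t, ht, hν⟩ ν' ⟨t', ht', hν'⟩ hne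
      rcases hchain.total ht ht' with h | h
      · exact (hc ht').2 ν (h hν) ν' hν' hne
      · exact (hc ht).2 ν hν ν' (h hν') hne) _ h0
  have hins : ∀ ρ : Measure X, IsProbabilityMeasure ρ → (∀ ν ∈ 𝓕, ρ ⟂ₘ ν) →
      ρ ∈ 𝓕 := by
    intro ρ hρ hρs
    have hmem : insert ρ 𝓕 ∈ P := by
      refine ⟨?_, ?_⟩
      · intro ν hν
        rcases mem_insert_iff.1 hν with rfl | hν
        · exact hρ
        · exact h𝓕.prop.1 ν hν
      · intro ν hν ν' hν' hne
        rcases mem_insert_iff.1 hν with h1 | h1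
        · rcases mem_insert_iff.1 hν' with h2 | h2
          · exact absurd (h1.trans h2.symm) hne
          · rw [h1]
            exact hρs ν' h2
        · rcases mem_insert_iff.1 hν' with h2 | h2
          · rw [h2]
            exact (hρs ν h1).symm
          · exact h𝓕.prop.2 ν h1 ν' h2 hne
    exact h𝓕.le_of_ge hmem (subset_insert _ _) (mem_insert _ _)
  refine ⟨𝓕, hsub, h𝓕.prop.1, h𝓕.prop.2, ?_⟩
  intro m hm hms
  by_contra hm0
  have hmu : m univ ≠ 0 := by
    intro h
    exact hm0 (Measure.measure_univ_eq_zero.1 h)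
  have h1 : (m univ)⁻¹ • m ∈ 𝓕 := by
    apply hins
    · refine ⟨?_⟩
      rw [Measure.smul_apply, smul_eq_mul]
      exact ENNReal.inv_mul_cancel hmu (measure_ne_top m univ)
    · intro ν hν
      exact (hms ν hν).smul _
  obtain ⟨s, hs, hs1, hs2⟩ := hms _ h1
  rw [Measure.smul_apply, smul_eq_mul, mul_eq_zero] at hs2
  have h2 : m sᶜ = 0 := hs2.resolve_left (ENNReal.inv_ne_zero.2 (measure_ne_top m univ))
  apply hmu
  rw [← union_compl_self s]
  exact measure_union_null hs1 h2

/-- a summand of an `ℓ¹`-sum -/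
theorem k12_single {K : Type u} (Y : K → Type v) [∀ k, NormedAddCommGroup (Y k)]
    [∀ k, NormedSpace ℝ (Y k)] (k : K) : CE (Y k) (lp Y 1) := by
  classical
  let i : Y k →ₗ[ℝ] lp Y 1 :=
    ⟨⟨fun a => lp.single 1 k a, fun a b => lp.single_add 1 k a b⟩,
      fun c a => lp.single_smul 1 k c a⟩
  let P : lp Y 1 →ₗ[ℝ] Y k := ⟨⟨fun f => f k, fun _ _ => rfl⟩, fun _ _ => rfl⟩
  refine ⟨i.mkContinuous 1 (fun x => ?_), P.mkContinuous 1 (fun f => ?_), fun x => ?_, ?_, ?_⟩
  · rw [one_mul]
    exact (lp.norm_single (by norm_num) k x).le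
  · rw [one_mul]
    exact lp.norm_apply_le_norm (by norm_num) f k
  · exact lp.single_apply_self 1 k x
  · exact LinearMap.mkContinuous_norm_le _ zero_le_one _
  · exact LinearMap.mkContinuous_norm_le _ zero_le_one _

/-- `L¹` of a probability measure with a dense set of cardinality at most that of `A` -/
theorem k12_upper {A : Type u} (hA : Infinite A) {Ω : Type u} [MeasurableSpace Ω]
    (μ : Measure Ω) (hμ : IsProbabilityMeasure μ)
    (hD : ∃ D : Set (Lp ℝ 1 μ), Dense D ∧ Cardinal.mk D ≤ Cardinal.mk A) :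
    CE (Lp ℝ 1 μ) (XC A) := by
  obtain ⟨ν, hν, ⟨e⟩⟩ := sT6 A hA Ω μ inferInstance (IsProbabilityMeasure.ne_zero μ) hD
  exact PW2.ce_trans (PW2.ce_equiv e) (hT5p A hA ν hν)

section space

variable {A : Type u} (K : Set (A → Bool))

/-- the sets `{x_a = 1}` -/
def k12_gen : Set (Set K) := range fun a : A => {x : K | (x : A → Bool) a = true}

/-- the algebra generated by them -/
def k12_alg : Set (Set K) := generateSetAlgebra (k12_gen K)

theorem k12_isAlg : IsSetAlgebra (k12_alg K) := isSetAlgebra_generateSetAlgebra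

theorem k12_clopen_gen (a : A) : IsClopen {x : K | (x : A → Bool) a = true} := by
  have hc : Continuous fun x : K => (x : A → Bool) a :=
    (continuous_apply a).comp continuous_subtype_val
  exact (isClopen_discrete ({true} : Set Bool)).preimage hc

theorem k12_clopen : ∀ s ∈ k12_alg K, IsClopen s := by
  intro s hs
  induction hs with
  | base s hs =>
    obtain ⟨a, rfl⟩ := hs
    exact k12_clopen_gen K a
  | empty => exact isClopen_empty
  | compl s _ ih => exact ih.compl
  | union s t _ _ ihs iht => exact ihs.union iht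

theorem k12_sep (x y : K) (h : x ≠ y) : ∃ s ∈ k12_alg K, x ∈ s ∧ y ∉ s := by
  have h1 : (x : A → Bool) ≠ y := fun h' => h (Subtype.ext h')
  obtain ⟨a, ha⟩ := Function.ne_iff.1 h1
  have hb : {x : K | (x : A → Bool) a = true} ∈ k12_alg K :=
    self_subset_generateSetAlgebra ⟨a, rfl⟩
  by_cases hx : (x : A → Bool) a = true
  · refine ⟨_, hb, hx, ?_⟩
    intro hy
    exact ha (hx.trans (Eq.symm hy))
  · refine ⟨_, (k12_isAlg K).compl_mem hb, hx, ?_⟩
    intro hy
    apply hy
    show (y : A → Bool) a = true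
    rw [Bool.not_eq_true] at hx
    rw [hx] at ha
    cases hya : (y : A → Bool) a
    · exact absurd hya.symm ha
    · rfl

theorem k12_meas_gen : (inferInstance : MeasurableSpace K) =
    MeasurableSpace.generateFrom (k12_gen K) := by
  apply le_antisymm
  · have h : @Measurable K (A → Bool) (MeasurableSpace.generateFrom (k12_gen K)) _
        (Subtype.val : K → A → Bool) := by
      refine @measurable_pi_iff K A (fun _ => Bool) (MeasurableSpace.generateFrom (k12_gen K)) _ _
        |>.2 fun a => ?_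
      refine @measurable_to_bool K (MeasurableSpace.generateFrom (k12_gen K)) _ ?_
      exact MeasurableSpace.measurableSet_generateFrom ⟨a, rfl⟩
    exact measurable_iff_comap_le.1 h
  · apply MeasurableSpace.generateFrom_le
    rintro _ ⟨a, rfl⟩
    have h : Measurable fun x : K => (x : A → Bool) a :=
      (measurable_pi_apply a).comp measurable_subtype_coe
    exact h (MeasurableSet.singleton true)

theorem k12_meas_alg : (inferInstance : MeasurableSpace K) =
    MeasurableSpace.generateFrom (k12_alg K) := by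
  rw [k12_meas_gen K]
  exact generateFrom_generateSetAlgebra_eq.symm

/-- `L¹(ν)` has a dense set of cardinality at most that of `A` -/
theorem k12_dens [Infinite A] (ν : Measure K) [IsFiniteMeasure ν] :
    ∃ D : Set (Lp ℝ 1 ν), Dense D ∧ Cardinal.mk D ≤ Cardinal.mk A := by
  have hd : ν.MeasureDense (k12_alg K) :=
    Measure.MeasureDense.of_generateFrom_isSetAlgebra_finite ν (k12_isAlg K) (k12_meas_alg K)
  have hA : Cardinal.aleph0 ≤ Cardinal.mk A := Cardinal.aleph0_le_mk A
  have hlt : Cardinal.aleph0 < Order.succ (Cardinal.mk A) := lt_of_le_of_lt hA (Order.lt_succ _)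
  have hg : Cardinal.mk (k12_gen K) < Order.succ (Cardinal.mk A) :=
    Order.lt_succ_of_le Cardinal.mk_range_le
  refine ⟨range (PMh3.Phi ν hd), PMh3.dense_Phi ν hd, ?_⟩
  exact Order.le_of_lt_succ (PMh3.card_Phi ν hd _ hlt (PMh3.card_alg _ _ hlt hg))

end space

/-- **(K12)** -/
theorem sK12 (h1 : S_KH1.{u}) (h2 : S_KH2.{u}) (h3 : S_KH3.{u}) (h4 : S_KH4.{u})
    (h5 : S_KH5.{u}) (hz : S_ZDL.{u}) : S_K12.{u} := by
  classical
  intro hCH
  obtain ⟨A, _, _, H, hKH⟩ := h1 hCH
  obtain ⟨hcl, hm, hmem⟩ := h2 A H hKH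
  have hAc : Cardinal.mk A = Cardinal.aleph 1 := hKH.card
  have hinf : Infinite A := by
    rw [Cardinal.infinite_iff, hAc]
    exact Cardinal.aleph0_lt_aleph_one.le
  have hcomp : CompactSpace (KK H) := isCompact_iff_compactSpace.1 hcl.isCompact
  set lamK : Measure (KK H) := (coins A).map (fun x => (⟨Phi H x, hmem x⟩ : KK H)) with hlam
  have hmeas : Measurable fun x => (⟨Phi H x, hmem x⟩ : KK H) := hm.subtype_mk
  have hprob : IsProbabilityMeasure lamK :=
    Measure.isProbabilityMeasure_map hmeas.aemeasurable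
  obtain ⟨𝓕, hsub, hmax⟩ := k12_max {lamK} (by
      intro ν hν
      rw [mem_singleton_iff] at hν
      rw [hν]
      exact hprob) (by
      intro ν hν ν' hν' hne
      rw [mem_singleton_iff] at hν hν'
      exact absurd (hν.trans hν'.symm) hne)
  have hlam𝓕 : lamK ∈ 𝓕 := hsub (mem_singleton _)
  obtain ⟨e⟩ := hz (KK H) (k12_alg (KK H)) (k12_isAlg _) (k12_clopen _) (k12_sep _)
    (k12_meas_alg _) 𝓕 hmax
  refine ⟨C(KK H, ℝ), inferInstance, inferInstance, inferInstance, ?_, ?_⟩
  · -- the lower estimate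
    have hmk : Cardinal.mk (Cardinal.aleph.{u} 1).out = Cardinal.aleph 1 := Cardinal.mk_out _
    have hT := hT12 (Cardinal.aleph.{u} 1).out (by rw [hmk]; exact Cardinal.isRegular_aleph_one)
      (by rw [hmk]; exact Cardinal.aleph0_lt_aleph_one) (KK H) lamK univ MeasurableSet.univ
      (measure_lt_top _ _) (by
        rw [hmk, Measure.restrict_univ]
        exact h3 A H hKH hmem hm)
    rw [Measure.restrict_univ] at hT
    refine PW2.ce_trans hT (PW2.ce_trans ?_ (PW2.ce_equiv e))
    exact k12_single (fun ν : 𝓕 => Lp ℝ 1 (ν : Measure (KK H))) ⟨lamK, hlam𝓕⟩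
  · -- the upper estimate
    refine PW2.ce_trans (PW2.ce_equiv e.symm) ?_
    have hsep : ∀ ν ∈ 𝓕, ν ≠ lamK → IsProbabilityMeasure ν ∧
        ∃ a₀ : A, ∀ a, a₀ ≤ a → ν {x | (x : A → Bool) a = true} = 0 := by
      intro ν hν hne
      exact ⟨hmax.1 ν hν, h4 A H hKH hmem hm ν (hmax.1 ν hν) (hmax.2.1 ν hν lamK hlam𝓕 hne)⟩
    have h5' := h5 A (KK H) (by rw [hAc, hCH]) hKH.ctbl
    have hcard : Cardinal.mk {ν : Measure (KK H) // ν ∈ 𝓕 ∧ ν ≠ lamK} ≤
        Cardinal.mk (Cardinal.aleph0.{u}.out → Bool) := by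
      have e1 : Cardinal.mk (Cardinal.aleph0.{u}.out → Bool) = Cardinal.continuum := by
        have e2 : ∀ B : Type u, Cardinal.mk (B → Bool) = 2 ^ Cardinal.mk B := fun B => by simp
        rw [e2, Cardinal.mk_out]
        exact Cardinal.two_power_aleph0
      rw [e1]
      refine le_trans ?_ h5'.2
      refine Cardinal.mk_le_of_injective (f := fun ν : {ν : Measure (KK H) // ν ∈ 𝓕 ∧ ν ≠ lamK} =>
        (⟨ν.1, hsep ν.1 ν.2.1 ν.2.2⟩ : {ν : Measure (KK H) | IsProbabilityMeasure ν ∧
          ∃ a₀ : A, ∀ a, a₀ ≤ a → ν {x | (x : A → Bool) a = true} = 0})) ?_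
      intro ν ν' h
      exact Subtype.ext (congrArg (fun z => z.1) h)
    obtain ⟨j⟩ := (Cardinal.le_def _ _).1 hcard
    let g : 𝓕 → Option (Cardinal.aleph0.{u}.out → Bool) := fun ν =>
      if h : (ν : Measure (KK H)) = lamK then none else some (j ⟨ν.1, ν.2, h⟩)
    have hg : Function.Injective g := by
      intro ν ν' h
      by_cases hν : (ν : Measure (KK H)) = lamK
      · by_cases hν' : (ν' : Measure (KK H)) = lamK
        · exact Subtype.ext (hν.trans hν'.symm)
        · simp only [g, dif_pos hν, dif_neg hν'] at h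
          exact absurd h (by simp)
      · by_cases hν' : (ν' : Measure (KK H)) = lamK
        · simp only [g, dif_pos hν', dif_neg hν] at h
          exact absurd h (by simp)
        · simp only [g, dif_neg hν', dif_neg hν] at h
          have h6 := j.injective (Option.some.inj h)
          exact Subtype.ext (congrArg (fun z => z.1) h6)
    refine sW3 𝓕 (Option (Cardinal.aleph0.{u}.out → Bool))
      (fun ν : 𝓕 => Lp ℝ 1 (ν : Measure (KK H))) (fun o => XC (ty.{u} o).out) g hg ?_
    intro ν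
    by_cases hν : (ν : Measure (KK H)) = lamK
    · have hgν : g ν = none := by simp only [g, dif_pos hν]
      rw [hgν]
      show CE (Lp ℝ 1 (ν : Measure (KK H))) (XC (Cardinal.aleph.{u} 1).out)
      have hmk : Cardinal.mk (Cardinal.aleph.{u} 1).out = Cardinal.aleph 1 := Cardinal.mk_out _
      have hi : Infinite (Cardinal.aleph.{u} 1).out := by
        rw [Cardinal.infinite_iff, hmk]
        exact Cardinal.aleph0_lt_aleph_one.le
      have hp : IsProbabilityMeasure (ν : Measure (KK H)) := hmax.1 ν.1 ν.2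
      refine k12_upper hi _ hp ?_
      rw [hmk, ← hAc]
      exact k12_dens (KK H) (ν : Measure (KK H))
    · have hgν : g ν = some (j ⟨ν.1, ν.2, hν⟩) := by simp only [g, dif_neg hν]
      rw [hgν]
      show CE (Lp ℝ 1 (ν : Measure (KK H))) (XC (Cardinal.aleph0.{u}).out)
      have hmk : Cardinal.mk (Cardinal.aleph0.{u}).out = Cardinal.aleph0 := Cardinal.mk_out _
      have hi : Infinite (Cardinal.aleph0.{u}).out := by
        rw [Cardinal.infinite_iff, hmk]
      have hp : IsProbabilityMeasure (ν : Measure (KK H)) := hmax.1 ν.1 ν.2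
      refine k12_upper hi _ hp ?_
      obtain ⟨D, hD, hDc⟩ := h5'.1 ν.1 hp (hsep ν.1 ν.2 hν).2
      refine ⟨D, hD, ?_⟩
      rw [hmk]
      rw [← Cardinal.succ_aleph0] at hDc
      exact Order.le_of_lt_succ hDc

end Pool.Agent.H597.LD
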